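import Pool.Agent.Lib.MP_c86c76_al.R.AnA
import Pool.Agent.Lib.MP_c86c76_al.C.St
import Pool.Agent.Lib.MP_c86c76_al.Lo.St

/-!
From a relative energy inequality to a fixed point of the fibre group.
-/

set_option autoImplicit false

noncomputable section

namespace Pool.Agent.MR

open Finset Filter Topology Pool.Agent.MT Pool.Agent.MC

/-- An affine isometric action on a real space. -/
structure Act (G H : Type) [Group G] [NormedAddCommGroup H] [InnerProductSpace ℝ H] where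
  ρ : G → H →ₗᵢ[ℝ] H
  b : G → H
  one : ∀ v, ρ 1 v = v
  mul : ∀ x y v, ρ (x * y) v = ρ x (ρ y v)
  coc : ∀ x y, b (x * y) = ρ x (b y) + b x

variable {G : Type} [Group G] {H : Type} [NormedAddCommGroup H] [InnerProductSpace ℝ H]

namespace Act

variable (A : Act G H)

def ap (x : G) (y : H) : H := A.ρ x y + A.b x

def l : Act G H := ⟨A.ρ, fun _ => 0, A.one, A.mul, fun _ _ => by simp⟩

def dp (x : G) (y : H) : H := A.ap x y - y

theorem l_dp (x : G) (v : H) : A.l.dp x v = A.ρ x v - v := by simp [dp, ap, l]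

theorem ap_mul (x y : G) (v : H) : A.ap (x * y) v = A.ap x (A.ap y v) := by
  simp only [ap, A.mul, A.coc, map_add, add_assoc]

theorem ap_one (v : H) : A.ap 1 v = v := by
  have := A.coc 1 1
  rw [mul_one, A.one, left_eq_add] at this
  rw [ap, A.one, this, add_zero]

theorem ap_sub (x : G) (v w : H) : A.ap x v - A.ap x w = A.ρ x (v - w) := by
  simp only [ap, map_sub]; abel

theorem dp_mul (x y : G) (v : H) : A.dp (x * y) v = A.ρ x (A.dp y v) + A.dp x v := by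
  rw [dp, dp, dp, ← ap_sub, ap_mul]; abel

theorem dp_add (x : G) (y v : H) : A.dp x (y + v) = A.dp x y + A.l.dp x v := by
  rw [l_dp]; simp only [dp, ap, map_add]; abel

theorem dp_inv (x : G) (y : H) : A.dp x y = -A.ρ x (A.dp x⁻¹ y) := by
  have := A.dp_mul x x⁻¹ y
  rw [mul_inv_cancel, dp, ap_one, sub_self] at this
  exact eq_neg_of_add_eq_zero_right this.symm

theorem expand (x : G) (y v : H) : ‖A.dp x (y + v)‖ ^ 2 =
    ‖A.dp x y‖ ^ 2 - 2 * inner ℝ (A.dp x y + A.dp x⁻¹ y) v + ‖A.l.dp x v‖ ^ 2 := by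
  have : inner ℝ (A.dp x y) (A.ρ x v) = -inner ℝ (A.dp x⁻¹ y) v := by
    rw [A.dp_inv x y, inner_neg_left, (A.ρ x).inner_map_map]
  rw [dp_add, norm_add_sq_real, l_dp, inner_sub_right, this, inner_add_left]; ring

theorem l_sq (x : G) (v : H) : ‖A.l.dp x v‖ ^ 2 = 2 * inner ℝ (v - A.ρ x v) v := by
  rw [l_dp, norm_sub_sq_real, (A.ρ x).norm_map, inner_sub_left, real_inner_self_eq_norm_sq]; ring

theorem l_le (x : G) (v : H) : ‖A.l.dp x v‖ ^ 2 ≤ 4 * ‖v‖ ^ 2 := by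
  have := norm_sub_le (A.ρ x v) v
  rw [(A.ρ x).norm_map] at this
  rw [l_dp]
  nlinarith [norm_nonneg (A.ρ x v - v), norm_nonneg v]

end Act

theorem word {S : Set G} {g : G} (hg : g ∈ Subgroup.closure S) :
    ∃ n : ℝ, 0 ≤ n ∧ ∀ (H : Type) [NormedAddCommGroup H] [InnerProductSpace ℝ H]
      (A : Act G H) (y : H) (δ : ℝ), 0 ≤ δ → (∀ s ∈ S, ‖A.dp s y‖ ≤ δ) → ‖A.dp g y‖ ≤ n * δ := by
  induction hg using Subgroup.closure_induction with
  | mem x hx => exact ⟨1, zero_le_one, fun H _ _ A v δ _ h => by simpa using h x hx⟩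
  | one => exact ⟨0, le_rfl, fun H _ _ A v δ _ _ => by simp [Act.dp, Act.ap_one]⟩
  | mul x y _ _ hx hy =>
    obtain ⟨n, n0, hn⟩ := hx
    obtain ⟨m, m0, hm⟩ := hy
    refine ⟨m + n, by positivity, fun H _ _ A v δ h d => ?_⟩
    rw [A.dp_mul, add_mul]
    refine (norm_add_le _ _).trans ?_
    rw [(A.ρ x).norm_map]
    exact add_le_add (hm H A v δ h d) (hn H A v δ h d)
  | inv x _ hx =>
    refine hx.imp fun n hn => ⟨hn.1, fun H _ _ A v δ h d => ?_⟩
    rw [A.dp_inv, norm_neg, (A.ρ _).norm_map, inv_inv]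
    exact hn.2 H A v δ h d

/-- The coefficients cancel on antisymmetric functions of the fibres. -/
def Bal (Δ : Subgroup G) (nv : ℕ) (μ : ℕ → ℝ) (z : ℕ → G) : Prop :=
  ∀ (M : Type) [AddCommGroup M] [Module ℝ M] (a : G → M), (∀ x, a x⁻¹ = -a x) →
    (∀ x, ∀ d ∈ Δ, a (x * d) = a x) → ∑ v ∈ range nv, μ v • a (z v) = 0

theorem Bal.split {S : Set G} {nv : ℕ} {μ : ℕ → ℝ} {z : ℕ → G}
    (h : Bal (Subgroup.closure S) nv μ z) : ∃ (ξ : G →₀ ℝ) (C : ℝ), 0 ≤ C ∧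
    ∀ (H : Type) [NormedAddCommGroup H] [InnerProductSpace ℝ H] (A : Act G H) (y : H) (δ : ℝ),
      0 ≤ δ → (∀ s ∈ S, ‖A.dp s y‖ ≤ δ) → ‖∑ v ∈ range nv, μ v • A.dp (z v) y -
        Finsupp.linearCombination ℝ (fun x => A.dp x y + A.dp x⁻¹ y) ξ‖ ≤ C * δ := by
  let R : Set (G →₀ ℝ) := {ω | (∃ x, ω = Finsupp.single x 1 + Finsupp.single x⁻¹ 1) ∨
    ∃ x, ∃ d ∈ Subgroup.closure S, ω = Finsupp.single (x * d) 1 - Finsupp.single x 1}
  have h1 := h ((G →₀ ℝ) ⧸ Submodule.span ℝ R)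
    (fun x => (Submodule.span ℝ R).mkQ (Finsupp.single x 1)) (fun x => by
      rw [eq_neg_iff_add_eq_zero, ← map_add, Submodule.mkQ_apply, Submodule.Quotient.mk_eq_zero]
      exact Submodule.subset_span (Or.inl ⟨x, add_comm _ _⟩)) fun x d hd => by
      rw [← sub_eq_zero, ← map_sub, Submodule.mkQ_apply, Submodule.Quotient.mk_eq_zero]
      exact Submodule.subset_span (Or.inr ⟨x, d, hd, rfl⟩)
  simp only [← map_smul] at h1
  rw [← map_sum, Submodule.mkQ_apply, Submodule.Quotient.mk_eq_zero] at h1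
  have key : ∀ ω ∈ Submodule.span ℝ R, ∃ (ξ : G →₀ ℝ) (C : ℝ), 0 ≤ C ∧
      ∀ (H : Type) [NormedAddCommGroup H] [InnerProductSpace ℝ H] (A : Act G H) (y : H) (δ : ℝ),
        0 ≤ δ → (∀ s ∈ S, ‖A.dp s y‖ ≤ δ) → ‖Finsupp.linearCombination ℝ (fun x => A.dp x y) ω -
          Finsupp.linearCombination ℝ (fun x => A.dp x y + A.dp x⁻¹ y) ξ‖ ≤ C * δ := by
    intro ω hω
    induction hω using Submodule.span_induction with
    | mem ω hω =>
      rcases hω with ⟨x, rfl⟩ | ⟨x, d, hd, rfl⟩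
      · exact ⟨Finsupp.single x 1, 0, le_rfl, fun H _ _ A y δ _ _ => by simp⟩
      · obtain ⟨n, n0, hn⟩ := word hd
        refine ⟨0, n, n0, fun H _ _ A y δ h d => ?_⟩
        simpa [A.dp_mul] using hn H A y δ h d
    | zero => exact ⟨0, 0, le_rfl, fun H _ _ A y δ _ _ => by simp⟩
    | add ω ω' _ _ h h' =>
      obtain ⟨ξ, C, C0, h⟩ := h
      obtain ⟨ξ', C', C0', h'⟩ := h'
      refine ⟨ξ + ξ', C + C', by positivity, fun H _ _ A y δ d0 d => ?_⟩
      rw [map_add, map_add, add_sub_add_comm, add_mul]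
      exact (norm_add_le _ _).trans (add_le_add (h H A y δ d0 d) (h' H A y δ d0 d))
    | smul t ω _ h =>
      obtain ⟨ξ, C, C0, h⟩ := h
      refine ⟨t • ξ, |t| * C, by positivity, fun H _ _ A y δ d0 d => ?_⟩
      rw [map_smul, map_smul, ← smul_sub, norm_smul, mul_assoc]
      exact mul_le_mul_of_nonneg_left (h H A y δ d0 d) (abs_nonneg t)
  obtain ⟨ξ, C, C0, h2⟩ := key _ h1
  refine ⟨ξ, C, C0, fun H _ _ A y δ d0 d => ?_⟩
  simpa [map_sum] using h2 H A y δ d0 d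

section Main

variable (nK ng : ℕ) (κ s : ℕ → G) (wt : ℕ → ℝ)

/-- The energy. -/
def enr (f : G → H) : ℝ := ∑ a ∈ range ng, ‖f (s a) - f 1‖ ^ 2

/-- The Laplacian. -/
def lpl (f : G → H) : H := ∑ a ∈ range ng, wt a • ∑ k ∈ range nK, (f 1 - f (κ k * s a))

/-- The finite group and the symmetric generators. -/
structure Sym : Prop where
  k0 : 0 < nK
  sum : ∀ (M : Type) [AddCommMonoid M] (F : G → M) k0,
    ∑ k ∈ range nK, F (κ k0 * κ k) = ∑ k ∈ range nK, F (κ k)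
  wt0 : ∀ a < ng, 0 < wt a
  sy : ∀ F : G → ℝ, (∀ x k, F (κ k * x) = F x) → (∀ x k, F (x * κ k) = F x) →
    ∑ a ∈ range ng, wt a * F (s a)⁻¹ = ∑ a ∈ range ng, wt a * F (s a)

variable {nK ng κ s wt}

theorem step (h : Sym nK ng κ s wt) (A : Act G H) {y v : H} (hy : ∀ k, A.ap (κ k) y = y)
    (hv : ∀ k, A.ρ (κ k) v = v) :
    ∑ a ∈ range ng, wt a * nK * (‖A.dp (s a) (y + v)‖ ^ 2 / 2) =
      ∑ a ∈ range ng, wt a * nK * (‖A.dp (s a) y‖ ^ 2 / 2) +
      2 * inner ℝ (lpl nK ng κ s wt fun x => A.ap x y) v +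
      ∑ a ∈ range ng, wt a * nK * (‖A.l.dp (s a) v‖ ^ 2 / 2) := by
  have z : ∀ k, A.dp (κ k) y = 0 := fun k => sub_eq_zero.2 (hy k)
  have mv : ∀ x k, inner ℝ (A.dp (κ k * x) y) v = inner ℝ (A.dp x y) v := fun x k => by
    rw [A.dp_mul, z, add_zero]
    conv_lhs => rw [← hv k]
    exact (A.ρ _).inner_map_map _ _
  have h1 := h.sy (fun x => inner ℝ (A.dp x y) v) mv fun x k => by
    rw [A.dp_mul, z, map_zero, zero_add]
  have h2 : inner ℝ (lpl nK ng κ s wt fun x => A.ap x y) v =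
      -(nK * ∑ a ∈ range ng, wt a * inner ℝ (A.dp (s a) y) v) := by
    rw [lpl, sum_inner, mul_sum, ← sum_neg_distrib]
    refine sum_congr rfl fun a _ => ?_
    have : ∀ k, A.ap 1 y - A.ap (κ k * s a) y = -A.dp (κ k * s a) y := fun k => by
      rw [A.ap_one, Act.dp, neg_sub]
    rw [real_inner_smul_left, sum_inner]
    simp only [this, inner_neg_left, mv, sum_const, card_range, nsmul_eq_mul]
    ring
  have h3 : ∀ a, wt a * nK * (‖A.dp (s a) (y + v)‖ ^ 2 / 2) =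
      wt a * nK * (‖A.dp (s a) y‖ ^ 2 / 2) - nK * (wt a * inner ℝ (A.dp (s a) y) v) -
      nK * (wt a * inner ℝ (A.dp (s a)⁻¹ y) v) + wt a * nK * (‖A.l.dp (s a) v‖ ^ 2 / 2) := by
    intro a
    rw [A.expand, inner_add_left]; ring
  simp only [h3, sum_add_distrib, sum_sub_distrib, ← mul_sum, h1, h2]
  ring

theorem lpl_fix (h : Sym nK ng κ s wt) (A : Act G H) {y : H} (hy : ∀ k, A.ap (κ k) y = y) (k0 : ℕ) :
    A.ρ (κ k0) (lpl nK ng κ s wt fun x => A.ap x y) = lpl nK ng κ s wt fun x => A.ap x y := by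
  rw [lpl, map_sum]
  refine sum_congr rfl fun a _ => ?_
  rw [map_smul, map_sum, ← h.sum H (fun x => A.ap 1 y - A.ap (x * s a) y) k0]
  congr 1
  refine sum_congr rfl fun k _ => ?_
  rw [← A.ap_sub, mul_assoc, A.ap_mul (κ k0), A.ap_one, hy]

/-- The relative energy inequality. -/
def RIneq (nK ng : ℕ) (κ s : ℕ → G) (wt : ℕ → ℝ) (nv : ℕ) (μ : ℕ → ℝ) (z : ℕ → G) (c : ℝ) : Prop :=
  ∀ (H : Type) [NormedAddCommGroup H] [InnerProductSpace ℝ H] (f : G → H), Eqv κ f →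
    c * enr ng s f ≤ ∑ v ∈ range nv, μ v * inner ℝ (f (z v) - f 1) (lpl nK ng κ s wt f)

theorem descent {nv : ℕ} {μ : ℕ → ℝ} {z : ℕ → G} {c : ℝ} (h : Sym nK ng κ s wt) (c0 : 0 < c)
    (hI : RIneq nK ng κ s wt nv μ z c)
    (hB : Bal (Subgroup.closure (Set.range κ ∪ s '' Set.Iio ng)) nv μ z) :
    ∃ (ξ : G →₀ ℝ) (C η c1 : ℝ), 0 < η ∧ 0 < c1 ∧
      ∀ (H : Type) [NormedAddCommGroup H] [InnerProductSpace ℝ H] (A : Act G H),
      (∀ v, η * ∑ a ∈ range ng, wt a * nK * (‖A.l.dp (s a) v‖ ^ 2 / 2) ≤ ‖v‖ ^ 2) ∧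
      ∀ y y', (∀ k, A.ap (κ k) y = y) → y' = y - η • (lpl nK ng κ s wt fun x => A.ap x y) →
        C * ∑ a ∈ range ng, wt a * nK * (‖A.dp (s a) y'‖ ^ 2 / 2) -
          ∑ x ∈ ξ.support, ξ x * (‖A.dp x y'‖ ^ 2 / 2) +
          c1 * ∑ a ∈ range ng, wt a * nK * (‖A.dp (s a) y‖ ^ 2 / 2) ≤
        C * ∑ a ∈ range ng, wt a * nK * (‖A.dp (s a) y‖ ^ 2 / 2) -
          ∑ x ∈ ξ.support, ξ x * (‖A.dp x y‖ ^ 2 / 2) := by
  obtain ⟨ξ, C, C0, hC⟩ := hB.split
  set W : ℝ := ∑ a ∈ range ng, wt a * nK with hW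
  have w0 : ∀ a ∈ range ng, 0 ≤ wt a * nK := fun a ha => by
    have := h.wt0 a (mem_range.1 ha); positivity
  have W0 : 0 ≤ W := sum_nonneg w0
  set R : ℝ := ∑ x ∈ ξ.support, |ξ x| with hR
  have R0 : 0 ≤ R := sum_nonneg fun _ _ => abs_nonneg _
  set η : ℝ := 1 / (2 * W + 1) with hη
  have η0 : 0 < η := by positivity
  have η1 : η * (2 * W + 1) = 1 := by rw [hη]; field_simp
  refine ⟨ξ, C ^ 2 / (2 * c) + 2 * R * η, η, η * c / (W + 1), η0, by positivity,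
    fun H _ _ A => ?_⟩
  have bd : ∀ (B : Act G H) (y : H) (t : ℝ), (∀ a < ng, ‖B.dp (s a) y‖ ^ 2 ≤ t) →
      ∑ a ∈ range ng, wt a * nK * (‖B.dp (s a) y‖ ^ 2 / 2) ≤ W * (t / 2) := fun B y t ht => by
    rw [hW, sum_mul]
    exact sum_le_sum fun a ha => mul_le_mul_of_nonneg_left
      (by linarith [ht a (mem_range.1 ha)]) (w0 a ha)
  have up : ∀ v, η * ∑ a ∈ range ng, wt a * nK * (‖A.l.dp (s a) v‖ ^ 2 / 2) ≤ ‖v‖ ^ 2 := by
    intro v
    have := mul_le_mul_of_nonneg_left (bd A.l v _ fun a _ => A.l_le (s a) v) η0.le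
    nlinarith [mul_nonneg η0.le (sq_nonneg ‖v‖)]
  refine ⟨up, fun y y' hy e => ?_⟩
  set u := lpl nK ng κ s wt fun x => A.ap x y with hu
  have hv : ∀ k, A.ρ (κ k) (-(η • u)) = -(η • u) := fun k => by
    rw [map_neg, map_smul, lpl_fix h A hy]
  have n1 : ‖-(η • u)‖ ^ 2 = η ^ 2 * ‖u‖ ^ 2 := by
    rw [norm_neg, norm_smul, mul_pow, Real.norm_eq_abs, sq_abs]
  have h1 := step h A hy hv
  have h2 := up (-(η • u))
  rw [← hu, ← sub_eq_add_neg, ← e, inner_neg_right, real_inner_smul_right,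
    real_inner_self_eq_norm_sq] at h1
  rw [n1] at h2
  set El := ∑ a ∈ range ng, wt a * nK * (‖A.l.dp (s a) (-(η • u))‖ ^ 2 / 2)
  have h3 : El ≤ η * ‖u‖ ^ 2 := le_of_mul_le_mul_left (by linarith) η0
  set X := Finsupp.linearCombination ℝ (fun x => A.dp x y + A.dp x⁻¹ y) ξ with hX
  have h4 : ∑ x ∈ ξ.support, ξ x * (‖A.dp x y‖ ^ 2 / 2) + η * inner ℝ X u -
      2 * R * (η ^ 2 * ‖u‖ ^ 2) ≤ ∑ x ∈ ξ.support, ξ x * (‖A.dp x y'‖ ^ 2 / 2) := by
    rw [hX, Finsupp.linearCombination_apply, Finsupp.sum, sum_inner, hR, mul_sum, mul_sum, sum_mul,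
      ← sum_add_distrib, ← sum_sub_distrib]
    refine sum_le_sum fun x _ => ?_
    have h5 := A.l_le x (-(η • u))
    rw [e, sub_eq_add_neg y, A.expand, inner_neg_right, real_inner_smul_right, real_inner_smul_left,
      ← n1]
    have h6 := mul_le_mul_of_nonneg_left h5 (abs_nonneg (ξ x))
    have h7 := mul_le_mul_of_nonneg_right (neg_abs_le (ξ x)) (sq_nonneg ‖A.l.dp x (-(η • u))‖)
    linarith
  have eq : Eqv κ fun x => A.ap x y :=
    ⟨fun a x x' => by rw [A.ap_mul, A.ap_mul, A.ap_sub, (A.ρ a).norm_map],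
      fun x k => by rw [A.ap_mul, hy]⟩
  have h5 := hI H _ eq
  set en := enr ng s fun x => A.ap x y with hen
  have le : ∀ a < ng, ‖A.dp (s a) y‖ ^ 2 ≤ en := fun a ha => by
    rw [hen, enr]
    simp only [A.ap_one]
    exact single_le_sum (f := fun a => ‖A.ap (s a) y - y‖ ^ 2) (fun _ _ => sq_nonneg _)
      (mem_range.2 ha)
  have e0 : 0 ≤ en := sum_nonneg fun _ _ => sq_nonneg _
  have h6 := hC H A y (√en) (Real.sqrt_nonneg _) (by
    rintro _ (⟨k, rfl⟩ | ⟨a, ha, rfl⟩)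
    · rw [Act.dp, hy, sub_self, norm_zero]; exact Real.sqrt_nonneg _
    · exact Real.le_sqrt_of_sq_le (le a ha))
  have h7 : ∑ v ∈ range nv, μ v * inner ℝ (A.ap (z v) y - A.ap 1 y) u ≤
      inner ℝ X u + C * √en * ‖u‖ := by
    have := (real_inner_le_norm _ u).trans (mul_le_mul_of_nonneg_right h6 (norm_nonneg u))
    rw [inner_sub_left, sum_inner] at this
    simp only [real_inner_smul_left] at this
    simp only [A.ap_one]
    exact sub_le_iff_le_add'.1 this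
  have h8 : C * √en * ‖u‖ ≤ c / 2 * en + C ^ 2 / (2 * c) * ‖u‖ ^ 2 := by
    have q : 0 ≤ c / 2 * (√en - C / c * ‖u‖) ^ 2 := by positivity
    have q1 : c / 2 * (√en - C / c * ‖u‖) ^ 2 =
        c / 2 * √en ^ 2 - C * √en * ‖u‖ + C ^ 2 / (2 * c) * ‖u‖ ^ 2 := by field_simp; ring
    rw [q1, Real.sq_sqrt e0] at q
    linarith
  have h9 : η * c / (W + 1) * ∑ a ∈ range ng, wt a * nK * (‖A.dp (s a) y‖ ^ 2 / 2) ≤
      η * (c / 2 * en) := by
    refine (mul_le_mul_of_nonneg_left ((bd A y en le).trans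
      (show _ ≤ (W + 1) * (en / 2) by nlinarith)) (by positivity)).trans (le_of_eq ?_)
    field_simp
  have h10 := mul_le_mul_of_nonneg_left (h5.trans (h7.trans (add_le_add_right h8 _))) η0.le
  have h11 := mul_le_mul_of_nonneg_left (show ∑ a ∈ range ng, wt a * nK *
    (‖A.dp (s a) y'‖ ^ 2 / 2) ≤ ∑ a ∈ range ng, wt a * nK * (‖A.dp (s a) y‖ ^ 2 / 2) -
      η * ‖u‖ ^ 2 by linarith) (show 0 ≤ C ^ 2 / (2 * c) + 2 * R * η by positivity)
  linarith

theorem fixR {nv : ℕ} {μ : ℕ → ℝ} {z : ℕ → G} {c : ℝ} (h : Sym nK ng κ s wt) (c0 : 0 < c)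
    (hI : RIneq nK ng κ s wt nv μ z c)
    (hB : Bal (Subgroup.closure (Set.range κ ∪ s '' Set.Iio ng)) nv μ z) [CompleteSpace H]
    (A : Act G H) : ∃ y, (∀ k, A.ap (κ k) y = y) ∧ ∀ a < ng, A.ap (s a) y = y := by
  obtain ⟨ξ, C, η, c1, η0, c10, hd⟩ := descent h c0 hI hB
  have n0 : (nK : ℝ) ≠ 0 := by exact_mod_cast h.k0.ne'
  let y0 : H := (nK : ℝ)⁻¹ • ∑ k ∈ range nK, A.b (κ k)
  have hy0 : ∀ k, A.ap (κ k) y0 = y0 := fun k => by
    have := h.sum H A.b k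
    simp only [A.coc, sum_add_distrib, sum_const, card_range] at this
    rw [Act.ap, map_smul, map_sum]
    conv_rhs => simp only [y0]; rw [← this, smul_add, ← Nat.cast_smul_eq_nsmul ℝ, inv_smul_smul₀ n0]
  let p : Submodule ℝ H :=
    { carrier := {v | ∀ k, A.ρ (κ k) v = v}
      add_mem' := fun {a b} ha hb k => by rw [map_add, ha k, hb k]
      zero_mem' := fun k => map_zero _
      smul_mem' := fun t a ha k => by rw [map_smul, ha k] }
  have hp : IsClosed (p : Set H) := by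
    have : (p : Set H) = ⋂ k, {v | A.ρ (κ k) v = v} := by
      ext v; rw [Set.mem_iInter]; exact Iff.rfl
    rw [this]
    exact isClosed_iInter fun k => isClosed_eq (A.ρ (κ k)).continuous continuous_id
  have pl : ∀ v ∈ p, ∀ k, A.l.ap (κ k) v = v := fun v hv k => (add_zero _).trans (hv k)
  have pa : ∀ v ∈ p, ∀ k, A.ap (κ k) (y0 + v) = y0 + v := fun v hv k => by
    rw [Act.ap, map_add, hv k, add_right_comm]; exact congrArg (· + v) (hy0 k)
  let L : H →L[ℝ] H := ∑ a ∈ range ng, wt a • ∑ k ∈ range nK,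
    (ContinuousLinearMap.id ℝ H - (A.ρ (κ k * s a)).toContinuousLinearMap)
  have hL : ∀ v, (lpl nK ng κ s wt fun x => A.l.ap x v) = L v := fun v => by
    simp [L, lpl, Act.ap, Act.l, A.one]
  set u := lpl nK ng κ s wt fun x => A.ap x y0 with hu
  have hA : ∀ v, (lpl nK ng κ s wt fun x => A.ap x (y0 + v)) = u + L v := fun v => by
    rw [hu, ← hL, lpl, lpl, lpl, ← sum_add_distrib]
    refine sum_congr rfl fun a _ => ?_
    rw [← smul_add, ← sum_add_distrib]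
    congr 1
    refine sum_congr rfl fun k _ => ?_
    simp only [Act.ap, Act.l, map_add]; abel
  let El : H → ℝ := fun v => ∑ a ∈ range ng, wt a * nK * (‖A.l.dp (s a) v‖ ^ 2 / 2)
  have st : ∀ v ∈ p, ∀ w ∈ p, El (v + w) = El v + 2 * inner ℝ (L v) w + El w := fun v hv w hw => by
    rw [← hL]; exact step h A.l (pl v hv) hw
  have qf : ∀ v ∈ p, El v = inner ℝ (L v) v := fun v hv => by
    have h1 := st v hv _ (p.neg_mem hv)
    have h2 : El (-v) = El v := by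
      simp only [El, A.l_sq, map_neg, inner_neg_right, neg_sub_neg, ← inner_neg_left, neg_sub]
    have h3 : El 0 = 0 := by simp [El, A.l_sq]
    rw [add_neg_cancel, h2, h3, inner_neg_right] at h1
    linarith
  have w0 : ∀ a ∈ range ng, 0 < wt a * nK := fun a ha => by
    have := h.wt0 a (mem_range.1 ha); have := h.k0; positivity
  have nn : ∀ (B : Act G H) y, ∀ a ∈ range ng, 0 ≤ wt a * nK * (‖B.dp (s a) y‖ ^ 2 / 2) :=
    fun B y a ha => by have := w0 a ha; positivity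
  let S : H →L[ℝ] H := C • L - ∑ x ∈ ξ.support, ξ x •
    (ContinuousLinearMap.id ℝ H - (A.ρ x).toContinuousLinearMap)
  have hS : ∀ v ∈ p, inner ℝ (S v) v =
      C * El v - ∑ x ∈ ξ.support, ξ x * (‖A.l.dp x v‖ ^ 2 / 2) := fun v hv => by
    simp [S, qf v hv, inner_sub_left, sum_inner, real_inner_smul_left, A.l_sq]
  set e := ∑ a ∈ range ng, wt a * nK * (‖A.dp (s a) y0‖ ^ 2 / 2) with he
  have hE : ∀ w ∈ p, ∑ a ∈ range ng, wt a * nK * (‖A.dp (s a) (y0 + w)‖ ^ 2 / 2) =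
      e + 2 * inner ℝ u w + inner ℝ (L w) w := fun w hw => by
    rw [← qf w hw]; exact step h A hy0 hw
  let a : H := (2 * C) • u + ∑ x ∈ ξ.support, ξ x • (A.dp x y0 + A.dp x⁻¹ y0)
  have hF : ∀ w ∈ p, C * ∑ a ∈ range ng, wt a * nK * (‖A.dp (s a) (y0 + w)‖ ^ 2 / 2) -
      ∑ x ∈ ξ.support, ξ x * (‖A.dp x (y0 + w)‖ ^ 2 / 2) =
      C * e - ∑ x ∈ ξ.support, ξ x * (‖A.dp x y0‖ ^ 2 / 2) + inner ℝ a w + inner ℝ (S w) w := by
    intro w hw
    have : ∀ x, ξ x * (‖A.dp x (y0 + w)‖ ^ 2 / 2) = ξ x * (‖A.dp x y0‖ ^ 2 / 2) -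
        ξ x * inner ℝ (A.dp x y0 + A.dp x⁻¹ y0) w + ξ x * (‖A.l.dp x w‖ ^ 2 / 2) := fun x => by
      rw [A.expand]; ring
    rw [hE w hw, hS w hw, qf w hw]
    simp only [this, a, sum_add_distrib, sum_sub_distrib, inner_add_left (_ • u), sum_inner,
      real_inner_smul_left]
    ring
  have Lp : ∀ v ∈ p, L v ∈ p := fun v hv k => by rw [← hL]; exact lpl_fix h A.l (pl v hv) k
  have up : u ∈ p := lpl_fix h A hy0
  obtain ⟨w, hw, h0⟩ := core p hp L S a u e η c1 η0 c10 Lp up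
    (fun v hv w hw => by
      have h1 := st v hv w hw
      have h2 := st w hw v hv
      rw [add_comm] at h2
      linarith)
    (fun v hv => by rw [← qf v hv]; exact sum_nonneg (nn A.l v))
    (fun v hv => by rw [← qf v hv]; exact (hd H A).1 v)
    (fun w hw => by rw [← hE w hw]; exact sum_nonneg (nn A _))
    (fun v hv => by
      rw [hS v hv, hS _ (p.sub_mem hv (p.smul_mem η (Lp v hv))), ← qf v hv]
      exact (hd H A.l).2 v _ (pl v hv) (by rw [hL]))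
    (fun w hw => by
      have h1 := (hd H A).2 _ (y0 + (w - η • (u + L w))) (pa w hw) (by rw [hA, add_sub_assoc])
      rw [hF w hw, hF _ (p.sub_mem hw (p.smul_mem η (p.add_mem up (Lp w hw)))), hE w hw] at h1
      linarith)
  refine ⟨y0 + w, pa w hw, fun a ha => ?_⟩
  rw [← hE w hw] at h0
  have h1 := (single_le_sum (nn A _) (mem_range.2 ha)).trans h0
  have h2 : ‖A.dp (s a) (y0 + w)‖ ^ 2 ≤ 0 := by
    by_contra hn
    have := mul_pos (w0 a (mem_range.2 ha)) (not_le.1 hn)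
    linarith
  exact sub_eq_zero.1 (norm_eq_zero.1 (pow_eq_zero_iff two_ne_zero |>.1
    (le_antisymm h2 (sq_nonneg _))))

/-- The fibre group fixes a point in every affine isometric action. -/
theorem rf_fix {nv : ℕ} {μ : ℕ → ℝ} {z : ℕ → G} {c : ℝ} (h : Sym nK ng κ s wt) (c0 : 0 < c)
    (hI : RIneq nK ng κ s wt nv μ z c)
    (hB : Bal (Subgroup.closure (Set.range κ ∪ s '' Set.Iio ng)) nv μ z)
    (H : Type) [NormedAddCommGroup H] [InnerProductSpace ℂ H] [CompleteSpace H]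
    (α : G →* (H ≃ᵃⁱ[ℂ] H)) :
    ∃ y, ∀ d ∈ Subgroup.closure (Set.range κ ∪ s '' Set.Iio ng), α d y = y := by
  let _ : InnerProductSpace ℝ H := InnerProductSpace.rclikeToReal ℂ H
  let A : Act G H :=
    { ρ := fun x =>
        { toFun := lin α x
          map_add' := map_add _
          map_smul' := fun t u => (lin α x).map_smul (algebraMap ℝ ℂ t) u
          norm_map' := (lin α x).norm_map }
      b := fun x => α x 0
      one := fun u => by show lin α 1 u = u; simp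
      mul := fun x y u => by show lin α (x * y) u = lin α x (lin α y u); simp
      coc := fun x y => by rw [act_mul, act_eq]; rfl }
  obtain ⟨y, h1, h2⟩ := fixR h c0 hI hB A
  refine ⟨y, fun d hd => fix_closure α ?_ hd⟩
  rintro _ (⟨k, rfl⟩ | ⟨a, ha, rfl⟩)
  exacts [(act_eq α _ y).trans (h1 k), (act_eq α _ y).trans (h2 a ha)]

/-- A normal subgroup that fixes a point in every action has the weak relative property. -/
theorem wr_of_fix {P : Subgroup G} (hP : P.Normal)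
    (h : ∀ (H : Type) [NormedAddCommGroup H] [InnerProductSpace ℂ H] [CompleteSpace H]
      (α : G →* (H ≃ᵃⁱ[ℂ] H)), ∃ y, ∀ d ∈ P, α d y = y) : ML.WR P := by
  intro H _ _ _ α h0 S ε hε
  obtain ⟨y, hy⟩ := h H α
  refine ⟨y, fun g _ => ?_⟩
  rw [h0 (α g y - y) fun d hd => ?_, norm_zero]
  · exact hε
  · have := hy _ (hP.conj_mem d hd g⁻¹)
    rw [lin_sub, hy d hd, ← act_mul, show d * g = g * (g⁻¹ * d * g⁻¹⁻¹) by group, act_mul, this]

theorem Sym.of_dat {g : ℕ → G} {D : Dat} (hK : KOk D)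
    (mul : ∀ a < D.nK, ∀ b < D.nK, κ (D.mul a b) = κ a * κ b) (out : ∀ k, D.nK ≤ k → κ k = 1)
    (sy : ∀ a < D.ng, ∃ x y, (g (D.gen a))⁻¹ = κ x * g (D.gen a) * κ y)
    (w0 : ∀ a < D.ng, 0 < D.wt a) :
    Sym D.nK D.ng κ (fun a => g (D.gen a)) fun a => (D.wt a : ℝ) := by
  refine ⟨hK.k0, fun M _ F k0 => ?_, fun a ha => by exact_mod_cast w0 a ha,
    fun F h1 h2 => sum_congr rfl fun a ha => ?_⟩
  · rcases le_or_gt D.nK k0 with h | h
    · simp only [out k0 h, one_mul]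
    · have hi := hK.inv k0 h
      refine sum_nbij' (D.mul k0) (D.mul (D.inv k0)) (fun k hk => ?_) (fun k hk => ?_)
        (fun k hk => ?_) (fun k hk => ?_) (fun k hk => ?_)
      · exact mem_range.2 (hK.mul _ h _ (mem_range.1 hk)).1
      · exact mem_range.2 (hK.mul _ hi.1 _ (mem_range.1 hk)).1
      · exact (hK.mul _ h _ (mem_range.1 hk)).2
      · have := (hK.mul _ hi.1 _ (mem_range.1 hk)).2
        rwa [hi.2.2] at this
      · rw [mul _ h _ (mem_range.1 hk)]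
  · obtain ⟨x, y, e⟩ := sy a (mem_range.1 ha)
    rw [e, h2, h1]

omit [InnerProductSpace ℝ H] in
theorem enr_eq (g : ℕ → G) (D : Dat) (f : G → H) :
    enr D.ng (fun a => g (D.gen a)) f = en g D f := rfl

theorem lpl_eq (κ g : ℕ → G) (D : Dat) (f : G → H) :
    lpl D.nK D.ng κ (fun a => g (D.gen a)) (fun a => (D.wt a : ℝ)) f = lap κ g D f := rfl

end Main

end Pool.Agent.MR
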