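import Mathlib

/-!
A Lyapunov function for the heat flow of a nonnegative operator.
-/

set_option autoImplicit false

noncomputable section

namespace Pool.Agent.MR

open Finset Filter Topology

variable {H : Type} [NormedAddCommGroup H] [InnerProductSpace ℝ H]

/-- A uniformly convex function on a closed subspace has a minimum. -/
theorem exists_min [CompleteSpace H] (W : Submodule ℝ H) (hW : IsClosed (W : Set H)) (Φ : H → ℝ)
    (hc : Continuous Φ) (c m : ℝ) (c0 : 0 < c) (hm : ∀ w ∈ W, m ≤ Φ w)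
    (par : ∀ a ∈ W, ∀ b ∈ W,
      Φ ((2 : ℝ)⁻¹ • (a + b)) + c * ‖a - b‖ ^ 2 ≤ (Φ a + Φ b) / 2) :
    ∃ w ∈ W, ∀ v ∈ W, Φ w ≤ Φ v := by
  have bd : BddBelow (Φ '' W) := ⟨m, Set.forall_mem_image.2 hm⟩
  have ne : (Φ '' W).Nonempty := ⟨_, 0, W.zero_mem, rfl⟩
  obtain ⟨u, -, hu, hs⟩ := exists_seq_tendsto_sInf ne bd
  choose w hw e using hs
  have low : ∀ v ∈ W, sInf (Φ '' W) ≤ Φ v := fun v hv => csInf_le bd ⟨v, hv, rfl⟩
  have cau : CauchySeq w := by
    refine Metric.cauchySeq_iff.2 fun ε hε => ?_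
    obtain ⟨N, hN⟩ := eventually_atTop.1 (hu.eventually
      (gt_mem_nhds (show sInf (Φ '' W) < sInf (Φ '' W) + c * ε ^ 2 by
        linarith [show 0 < c * ε ^ 2 by positivity])))
    refine ⟨N, fun i hi j hj => ?_⟩
    have h1 := par _ (hw i) _ (hw j)
    have h2 := low _ (W.smul_mem (2 : ℝ)⁻¹ (W.add_mem (hw i) (hw j)))
    have h3 := hN i hi
    have h4 := hN j hj
    rw [e, e] at h1
    rw [dist_eq_norm]
    refine lt_of_pow_lt_pow_left₀ 2 hε.le (lt_of_mul_lt_mul_left ?_ c0.le)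
    linarith
  obtain ⟨x, hx⟩ := cauchySeq_tendsto_of_complete cau
  refine ⟨x, hW.mem_of_tendsto hx (Eventually.of_forall hw), fun v hv => ?_⟩
  have h1 : Tendsto u atTop (𝓝 (Φ x)) := ((hc.tendsto x).comp hx).congr e
  rw [tendsto_nhds_unique h1 hu]
  exact low v hv

/-- If a quadratic function decreases along the heat flow at the rate of the energy, in the affine
and in the linear picture, then the energy has a zero. -/
theorem core [CompleteSpace H] (p : Submodule ℝ H) (hp : IsClosed (p : Set H))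
    (L S : H →L[ℝ] H) (a u : H) (e η c : ℝ) (η0 : 0 < η) (c0 : 0 < c)
    (hL : ∀ v ∈ p, L v ∈ p) (hu : u ∈ p)
    (sy : ∀ v ∈ p, ∀ w ∈ p, inner ℝ (L v) w = inner ℝ (L w) v)
    (pos : ∀ v ∈ p, 0 ≤ inner ℝ (L v) v)
    (up : ∀ v ∈ p, η * inner ℝ (L v) v ≤ ‖v‖ ^ 2)
    (en : ∀ w ∈ p, 0 ≤ e + 2 * inner ℝ u w + inner ℝ (L w) w)
    (lin : ∀ v ∈ p, inner ℝ (S (v - η • L v)) (v - η • L v) + c * inner ℝ (L v) v ≤
      inner ℝ (S v) v)
    (aff : ∀ w ∈ p, inner ℝ a (w - η • (u + L w)) +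
      inner ℝ (S (w - η • (u + L w))) (w - η • (u + L w)) +
      c * (e + 2 * inner ℝ u w + inner ℝ (L w) w) ≤ inner ℝ a w + inner ℝ (S w) w) :
    ∃ w ∈ p, e + 2 * inner ℝ u w + inner ℝ (L w) w ≤ 0 := by
  let W : Submodule ℝ H := (p.map L.toLinearMap).topologicalClosure
  have hW : IsClosed (W : Set H) := Submodule.isClosed_topologicalClosure _
  have LW : ∀ v ∈ p, L v ∈ W := fun v hv => Submodule.le_topologicalClosure _ ⟨v, hv, rfl⟩
  have Wp : W ≤ p := Submodule.topologicalClosure_minimal _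
    (by rintro _ ⟨v, hv, rfl⟩; exact hL v hv) hp
  let M : H → H := fun v => v - η • L v
  have hM : ∀ v ∈ p, M v ∈ p := fun v hv => p.sub_mem hv (p.smul_mem _ (hL v hv))
  set d : ℝ := c / (2 * η) with hd
  have d0 : 0 < d := by positivity
  let Ψ : H → ℝ := fun v => inner ℝ (S v) v - d * ‖v‖ ^ 2
  have Ψc : Continuous Ψ := by fun_prop
  have mono : ∀ v ∈ p, Ψ (M v) ≤ Ψ v := by
    intro v hv
    have h1 := lin v hv
    have h2 : ‖M v‖ ^ 2 = ‖v‖ ^ 2 - 2 * η * inner ℝ (L v) v + ‖η • L v‖ ^ 2 := by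
      rw [norm_sub_sq_real, real_inner_smul_right, real_inner_comm]; ring
    have h3 : d * (2 * η * inner ℝ (L v) v) = c * inner ℝ (L v) v := by rw [hd]; field_simp
    have h4 : 0 ≤ d * ‖η • L v‖ ^ 2 := by positivity
    show inner ℝ (S (M v)) (M v) - d * ‖M v‖ ^ 2 ≤ inner ℝ (S v) v - d * ‖v‖ ^ 2
    rw [h2]
    nlinarith
  have key : ∀ x ∈ p, inner ℝ (L (M x)) (M x) + η * ‖L x‖ ^ 2 ≤ inner ℝ (L x) x := by
    intro x hx
    have h1 := mul_le_mul_of_nonneg_left (up _ (hL x hx)) η0.le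
    have h2 := sy _ (hL x hx) x hx
    simp only [M, map_sub, map_smul, inner_sub_left, inner_sub_right, real_inner_smul_left,
      real_inner_smul_right, h2, real_inner_self_eq_norm_sq]
    linarith
  have co : ∀ v ∈ W, 0 ≤ Ψ v := by
    refine fun v hv => closure_minimal (s := (p.map L.toLinearMap : Set H))
      (t := {v | 0 ≤ Ψ v}) ?_ (isClosed_le continuous_const Ψc) hv
    rintro _ ⟨x, hx, rfl⟩
    have it : ∀ n, M^[n] x ∈ p ∧ Ψ (L (M^[n] x)) ≤ Ψ (L x) ∧
        inner ℝ (L (M^[n] x)) (M^[n] x) + η * ∑ i ∈ range n, ‖L (M^[i] x)‖ ^ 2 ≤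
          inner ℝ (L x) x := by
      intro n
      induction n with
      | zero => exact ⟨hx, le_rfl, by simp⟩
      | succ n ih =>
        rw [Function.iterate_succ_apply', sum_range_succ]
        refine ⟨hM _ ih.1, le_trans ?_ ih.2.1, by linarith [key _ ih.1, ih.2.2]⟩
        have e : L (M (M^[n] x)) = M (L (M^[n] x)) := by simp only [M, map_sub, map_smul]
        rw [e]
        exact mono _ (hL _ ih.1)
    have sm : Summable fun i => ‖L (M^[i] x)‖ ^ 2 :=
      summable_of_sum_range_le (c := inner ℝ (L x) x / η) (fun _ => sq_nonneg _) fun n => by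
        rw [le_div_iff₀ η0]
        linarith [(it n).2.2, pos _ (it n).1]
    have t0 : Tendsto (fun i => L (M^[i] x)) atTop (𝓝 0) := by
      rw [tendsto_zero_iff_norm_tendsto_zero]
      have := (Real.continuous_sqrt.tendsto 0).comp sm.tendsto_atTop_zero
      simpa [Function.comp_def] using this
    have t1 := (Ψc.tendsto 0).comp t0
    have z : Ψ 0 = 0 := by simp [Ψ]
    rw [z] at t1
    exact le_of_tendsto' t1 fun n => (it n).2.1
  have uW : u ∈ W := by
    have : CompleteSpace W := hW.completeSpace_coe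
    have hb := W.sub_starProjection_mem_orthogonal u
    have ha := W.starProjection_apply_mem u
    set b := u - W.starProjection u with eb
    have bp : b ∈ p := p.sub_mem hu (Wp ha)
    have L0 : L b = 0 := by
      have h1 := sy _ bp _ (hL b bp)
      rw [hb _ (LW _ (hL b bp))] at h1
      exact inner_self_eq_zero.1 h1
    have h2 : inner ℝ u b = ‖b‖ ^ 2 := by
      rw [← real_inner_self_eq_norm_sq]
      conv_rhs => enter [2]; rw [eb]
      rw [inner_sub_left, hb _ ha, sub_zero]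
    have b0 : b = 0 := by
      by_contra hn
      have n0 : 0 < ‖b‖ ^ 2 := by positivity
      have h3 := en _ (p.smul_mem (-((|e| + 1) / ‖b‖ ^ 2)) bp)
      rw [map_smul, L0, smul_zero, inner_zero_left, real_inner_smul_right, h2, neg_mul,
        div_mul_cancel₀ _ n0.ne'] at h3
      linarith [le_abs_self e, abs_nonneg e]
    rw [sub_eq_zero.1 b0]
    exact ha
  obtain ⟨w, hw, hmin⟩ := exists_min W hW (fun w => inner ℝ a w + inner ℝ (S w) w)
    (by fun_prop) (d / 4) (-(‖a‖ ^ 2 / (4 * d))) (by positivity) (fun w hw => by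
      have h1 : 0 ≤ inner ℝ (S w) w - d * ‖w‖ ^ 2 := co w hw
      have h2 := abs_real_inner_le_norm a w
      have h3 := neg_abs_le (inner ℝ a w)
      have h4 : 0 ≤ d * (‖w‖ - ‖a‖ / (2 * d)) ^ 2 := by positivity
      have h5 : d * (‖w‖ - ‖a‖ / (2 * d)) ^ 2 =
          d * ‖w‖ ^ 2 - ‖a‖ * ‖w‖ + ‖a‖ ^ 2 / (4 * d) := by field_simp; ring
      linarith) (fun x hx y hy => by
      have h1 : 0 ≤ inner ℝ (S (x - y)) (x - y) - d * ‖x - y‖ ^ 2 := co _ (W.sub_mem hx hy)
      simp only [map_sub, map_add, map_smul, inner_sub_left, inner_sub_right, inner_add_left,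
        inner_add_right, real_inner_smul_left, real_inner_smul_right] at h1 ⊢
      linarith)
  refine ⟨w, Wp hw, ?_⟩
  have h1 := hmin _ (W.sub_mem hw (W.smul_mem η (W.add_mem uW (LW w (Wp hw)))))
  have h2 := aff w (Wp hw)
  by_contra hn
  have := mul_pos c0 (not_le.1 hn)
  linarith

end Pool.Agent.MR
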