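import Pool.Agent.Lib.MP_c86c76_al.C.Bas
import Pool.Agent.Lib.MP_c86c76_al.S.Rel

/-!
From the fibre energy inequality to a fixed point: a Lyapunov function argument.
-/

set_option autoImplicit false

noncomputable section

namespace Pool.Agent.MR

open Pool.Agent.MT Pool.Agent.MC Finset Filter Topology

/-- Lyapunov's theorem for an injective nonnegative operator. -/
theorem lyap {W : Type} [NormedAddCommGroup W] [InnerProductSpace ℝ W] [CompleteSpace W]
    (D : W →L[ℝ] W) (B : W →L[ℝ] W →L[ℝ] ℝ) (c : ℝ) (hc : 0 ≤ c)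
    (sB : ∀ u v, B u v = B v u) (sD : ∀ u v, inner ℝ (D u) v = inner ℝ (D v) u)
    (pos : ∀ v, 0 ≤ inner ℝ (D v) v) (inj : ∀ v, D v = 0 → v = 0)
    (h : ∀ v, c * inner ℝ (D v) v ≤ B v (D v)) :
    ∃ C : ℝ, 0 ≤ C ∧ ∀ v, c * ‖v‖ ^ 2 ≤ B v v + C * inner ℝ (D v) v := by
  obtain ⟨η, η0, hη⟩ : ∃ η : ℝ, 0 < η ∧ ∀ x, η * inner ℝ (D x) x ≤ ‖x‖ ^ 2 := by
    refine ⟨(‖D‖ + 1)⁻¹, by positivity, fun x => ?_⟩
    rw [inv_mul_le_iff₀ (by positivity)]
    have h1 := real_inner_le_norm (D x) x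
    have h2 := mul_le_mul_of_nonneg_right (D.le_opNorm x) (norm_nonneg x)
    nlinarith [sq_nonneg ‖x‖]
  obtain ⟨β, β0, hβ⟩ : ∃ β : ℝ, 0 ≤ β ∧ ∀ x, |B x x - c * ‖x‖ ^ 2| ≤ β * ‖x‖ ^ 2 := by
    refine ⟨‖B‖ + c, by positivity, fun x => (abs_sub _ _).trans ?_⟩
    have h1 := B.le_opNorm₂ x x
    rw [Real.norm_eq_abs] at h1
    rw [abs_of_nonneg (show 0 ≤ c * ‖x‖ ^ 2 by positivity)]
    nlinarith
  let T : W → W := fun x => x - η • D x
  have key : ∀ x, inner ℝ (D (T x)) (T x) ≤ inner ℝ (D x) x - η * ‖D x‖ ^ 2 := by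
    intro x
    have h3 := mul_le_mul_of_nonneg_left (hη (D x)) η0.le
    simp only [T, map_sub, map_smul, inner_sub_left, inner_sub_right, real_inner_smul_left,
      real_inner_smul_right, sD (D x) x, real_inner_self_eq_norm_sq]
    linarith
  let Λ : W → ℝ := fun x => B x x - c * ‖x‖ ^ 2 + η * β * inner ℝ (D x) x
  have dec : ∀ x, Λ (T x) ≤ Λ x := by
    intro x
    have h1 := mul_le_mul_of_nonneg_left (key x) (show 0 ≤ η * β by positivity)
    have h2 := mul_le_mul_of_nonneg_left (h x) η0.le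
    have h3 := mul_le_mul_of_nonneg_left ((le_abs_self _).trans (hβ (D x))) (sq_nonneg η)
    have e1 : B (T x) (T x) = B x x - 2 * η * B x (D x) + η ^ 2 * B (D x) (D x) := by
      simp only [T, map_sub, map_smul, sub_apply, smul_apply,
        smul_eq_mul, sB (D x) x]
      ring
    have e2 : ‖T x‖ ^ 2 = ‖x‖ ^ 2 - 2 * η * inner ℝ (D x) x + η ^ 2 * ‖D x‖ ^ 2 := by
      simp only [T]
      rw [norm_sub_sq_real, real_inner_smul_right, real_inner_comm, norm_smul, mul_pow,
        Real.norm_eq_abs, sq_abs]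
      ring
    simp only [Λ]
    rw [e1, e2]
    nlinarith
  have it : ∀ x n, Λ (T^[n] x) ≤ Λ x := fun x n => by
    induction n with
    | zero => exact le_rfl
    | succ n ih => rw [Function.iterate_succ_apply']; exact (dec _).trans ih
  have cm : ∀ x n, T^[n] (D x) = D (T^[n] x) := fun x n => by
    induction n with
    | zero => rfl
    | succ n ih =>
      rw [Function.iterate_succ_apply', Function.iterate_succ_apply', ih]
      simp only [T, map_sub, map_smul]
  have rg : ∀ w, 0 ≤ Λ (D w) := by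
    intro w
    have s1 : ∀ n, ∑ i ∈ range n, η * ‖D (T^[i] w)‖ ^ 2 + inner ℝ (D (T^[n] w)) (T^[n] w) ≤
        inner ℝ (D w) w := fun n => by
      induction n with
      | zero => simp
      | succ n ih =>
        rw [sum_range_succ, Function.iterate_succ_apply']
        linarith [key (T^[n] w)]
    have s2 : Summable fun i => η * ‖D (T^[i] w)‖ ^ 2 :=
      summable_of_sum_range_le (c := inner ℝ (D w) w) (fun _ => by positivity) fun n => by
        linarith [s1 n, pos (T^[n] w)]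
    have s3 := s2.tendsto_atTop_zero.const_mul (-(β / η))
    rw [mul_zero] at s3
    refine le_of_tendsto' s3 fun n => le_trans ?_ (it (D w) n)
    rw [cm]
    have h1 := (abs_le.1 (hβ (D (T^[n] w)))).1
    have h2 := mul_nonneg (show 0 ≤ η * β by positivity) (pos (D (T^[n] w)))
    have e : -(β / η) * (η * ‖D (T^[n] w)‖ ^ 2) = -(β * ‖D (T^[n] w)‖ ^ 2) := by field_simp
    simp only [Λ]
    linarith
  have dn : Dense ((D : W →ₗ[ℝ] W).range : Set W) := by
    rw [Submodule.dense_iff_topologicalClosure_eq_top, Submodule.topologicalClosure_eq_top_iff,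
      Submodule.eq_bot_iff]
    intro v hv
    refine inj v (inner_self_eq_zero (𝕜 := ℝ).1 ?_)
    rw [← sD]
    exact hv _ ⟨_, rfl⟩
  have cl : IsClosed {v | 0 ≤ Λ v} := isClosed_le continuous_const (by
    simp only [Λ]
    fun_prop)
  refine ⟨η * β, by positivity, fun v => ?_⟩
  have : v ∈ {v | 0 ≤ Λ v} :=
    cl.closure_subset_iff.2 (by rintro _ ⟨w, rfl⟩; exact rg w) (dn v)
  simp only [Λ, Set.mem_ofPred_eq] at this
  linarith

variable {G : Type} [Group G]

/-- A finite family whose sums are invariant under left multiplication by its members. -/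
structure KT (κ : ℕ → G) (nK : ℕ) : Prop where
  pos : 0 < nK
  out : ∀ k, nK ≤ k → κ k = 1
  left : ∀ a < nK, ∀ (M : Type) [AddCommMonoid M] (F : G → M),
    ∑ k ∈ range nK, F (κ a * κ k) = ∑ k ∈ range nK, F (κ k)

theorem KT.of_tab {κ : ℕ → G} {nK : ℕ} (mul : ℕ → ℕ → ℕ) (inv : ℕ → ℕ) (h0 : 0 < nK)
    (ho : ∀ k, nK ≤ k → κ k = 1)
    (hm : ∀ a < nK, ∀ b < nK, mul a b < nK ∧ mul (inv a) (mul a b) = b)
    (hi : ∀ a < nK, inv a < nK ∧ inv (inv a) = a)
    (hκ : ∀ a < nK, ∀ b < nK, κ (mul a b) = κ a * κ b) : KT κ nK := by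
  refine ⟨h0, ho, fun a h M _ F => ?_⟩
  refine sum_nbij' (mul a) (mul (inv a)) (fun k hk => ?_) (fun k hk => ?_)
    (fun k hk => ?_) (fun k hk => ?_) (fun k hk => ?_)
  · exact mem_range.2 (hm _ h _ (mem_range.1 hk)).1
  · exact mem_range.2 (hm _ (hi a h).1 _ (mem_range.1 hk)).1
  · exact (hm _ h _ (mem_range.1 hk)).2
  · have := (hm _ (hi a h).1 _ (mem_range.1 hk)).2
    rwa [(hi a h).2] at this
  · rw [hκ _ h _ (mem_range.1 hk)]

section Sem

variable {H : Type} [NormedAddCommGroup H] [InnerProductSpace ℝ H]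

def enR (s : ℕ → G) (ng : ℕ) (f : G → H) : ℝ := ∑ a ∈ range ng, ph f (s a)

def lapR (κ s : ℕ → G) (nK ng : ℕ) (wt : ℕ → ℝ) (f : G → H) : H :=
  ∑ a ∈ range ng, wt a • ∑ k ∈ range nK, (f 1 - f (κ k * s a))

end Sem

/-- The fibre group. -/
def Del (κ s : ℕ → G) (ng : ℕ) : Subgroup G := Subgroup.closure (Set.range κ ∪ s '' Set.Iio ng)

/-- The fibre energy inequality. -/
def RIneq (κ s z : ℕ → G) (nK ng nv : ℕ) (wt μ : ℕ → ℝ) (c : ℝ) : Prop :=
  ∀ (H : Type) [NormedAddCommGroup H] [InnerProductSpace ℝ H] (f : G → H), Eqv κ f →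
    c * enR s ng f ≤ ∑ v ∈ range nv, μ v * inner ℝ (f (z v) - f 1) (lapR κ s nK ng wt f)

/-- The multipliers are balanced on the double cosets of the fibre group. -/
def Bal (κ s z : ℕ → G) (ng nv : ℕ) (μ : ℕ → ℝ) : Prop :=
  ∀ (M : Type) [AddCommGroup M] [Module ℝ M] (a : G → M), (∀ x, a x⁻¹ = -a x) →
    (∀ x, ∀ d ∈ Del κ s ng, a (x * d) = a x) → ∑ v ∈ range nv, μ v • a (z v) = 0

theorem enR_nonneg {H : Type} [NormedAddCommGroup H] (s : ℕ → G) (ng : ℕ) (f : G → H) :
    0 ≤ enR s ng f := sum_nonneg fun _ _ => ph_nonneg _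

theorem del_bd {κ s : ℕ → G} {ng : ℕ} {d : G} (hd : d ∈ Del κ s ng) :
    ∃ C : ℝ, ∀ (H : Type) [NormedAddCommGroup H] (f : G → H), Eqv κ f →
      √(ph f d) ≤ C * √(enR s ng f) := by
  induction hd using Subgroup.closure_induction with
  | mem x hx =>
    refine ⟨1, fun H _ f hf => ?_⟩
    rw [one_mul]
    refine Real.sqrt_le_sqrt ?_
    rcases hx with ⟨k, rfl⟩ | ⟨a, ha, rfl⟩
    · rw [← one_mul (κ k), hf.right, ph_one]; exact enR_nonneg _ _ _
    · exact single_le_sum (f := fun a => ph f (s a)) (fun _ _ => ph_nonneg _) (mem_range.2 ha)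
  | one => exact ⟨0, fun H _ f _ => by simp [ph_one]⟩
  | mul x y _ _ hx hy =>
    obtain ⟨a, ha⟩ := hx
    obtain ⟨b, hb⟩ := hy
    exact ⟨a + b, fun H _ f hf => (hf.tri x y).trans (by
      rw [add_mul]; exact add_le_add (ha H f hf) (hb H f hf))⟩
  | inv x _ hx => exact hx.imp fun C h H _ f hf => by rw [hf.inv]; exact h H f hf

/-- Balanced multipliers are symmetric up to moves along the fibres. -/
theorem Bal.dec {κ s z : ℕ → G} {ng nv : ℕ} {μ : ℕ → ℝ} (hB : Bal κ s z ng nv μ) :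
    ∃ (ν : G →₀ ℝ) (C : ℝ), ∀ (H : Type) [NormedAddCommGroup H] [InnerProductSpace ℝ H]
      (f : G → H), Eqv κ f → ‖∑ v ∈ range nv, μ v • (f (z v) - f 1) -
        Finsupp.linearCombination ℝ (fun x => (f x - f 1) + (f x⁻¹ - f 1)) ν‖ ≤
          C * √(enR s ng f) := by
  let S : Set (G →₀ ℝ) := {m | (∃ x, m = Finsupp.single x 1 + Finsupp.single x⁻¹ 1) ∨
    ∃ x, ∃ d ∈ Del κ s ng, m = Finsupp.single (x * d) 1 - Finsupp.single x 1}
  let U := Submodule.span ℝ S
  have h0 := hB ((G →₀ ℝ) ⧸ U) (fun x => U.mkQ (Finsupp.single x 1))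
    (fun x => by
      rw [eq_neg_iff_add_eq_zero, ← map_add, add_comm]
      exact (Submodule.Quotient.mk_eq_zero U).2 (Submodule.subset_span (Or.inl ⟨x, rfl⟩)))
    (fun x d hd => by
      rw [← sub_eq_zero, ← map_sub]
      exact (Submodule.Quotient.mk_eq_zero U).2 (Submodule.subset_span (Or.inr ⟨x, d, hd, rfl⟩)))
  have h1 : ∑ v ∈ range nv, μ v • Finsupp.single (z v) (1 : ℝ) ∈ U := by
    rw [← Submodule.Quotient.mk_eq_zero, ← h0, ← Submodule.mkQ_apply, map_sum]
    simp only [map_smul]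
  have key : ∀ m ∈ U, ∃ (ν : G →₀ ℝ) (C : ℝ), ∀ (H : Type) [NormedAddCommGroup H]
      [InnerProductSpace ℝ H] (f : G → H), Eqv κ f →
      ‖Finsupp.linearCombination ℝ (fun x => f x - f 1) m -
        Finsupp.linearCombination ℝ (fun x => (f x - f 1) + (f x⁻¹ - f 1)) ν‖ ≤
          C * √(enR s ng f) := by
    intro m hm
    induction hm using Submodule.span_induction with
    | mem m hm =>
      rcases hm with ⟨x, rfl⟩ | ⟨x, d, hd, rfl⟩
      · exact ⟨Finsupp.single x 1, 0, fun H _ _ f _ => by simp⟩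
      · obtain ⟨C, hC⟩ := del_bd hd
        refine ⟨0, C, fun H _ _ f hf => le_trans (le_of_eq ?_) (hC H f hf)⟩
        have := hf.iso x d 1
        rw [mul_one] at this
        rw [ph, Real.sqrt_sq (norm_nonneg _), ← this]
        simp
    | zero => exact ⟨0, 0, fun H _ _ f _ => by simp⟩
    | add m m' _ _ h h' =>
      obtain ⟨ν, C, h⟩ := h
      obtain ⟨ν', C', h'⟩ := h'
      refine ⟨ν + ν', C + C', fun H _ _ f hf => ?_⟩
      rw [map_add, map_add, add_sub_add_comm, add_mul]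
      exact (norm_add_le _ _).trans (add_le_add (h H f hf) (h' H f hf))
    | smul t m _ h =>
      obtain ⟨ν, C, h⟩ := h
      refine ⟨t • ν, ‖t‖ * C, fun H _ _ f hf => ?_⟩
      rw [map_smul, map_smul, ← smul_sub, norm_smul, mul_assoc]
      exact mul_le_mul_of_nonneg_left (h H f hf) (norm_nonneg _)
  obtain ⟨ν, C, h⟩ := key _ h1
  refine ⟨ν, C, fun H _ _ f hf => le_trans (le_of_eq ?_) (h H f hf)⟩
  simp only [map_sum, map_smul, Finsupp.linearCombination_single, one_smul]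

theorem rf_real {κ s z : ℕ → G} {nK ng nv : ℕ} {wt μ : ℕ → ℝ} {c : ℝ} (hK : KT κ nK)
    (hw : ∀ a, 0 ≤ wt a) (sy : ∀ a < ng, ∃ x y, (s a)⁻¹ = κ x * s a * κ y) (hc : 0 < c)
    (hI : RIneq κ s z nK ng nv wt μ c) (hB : Bal κ s z ng nv μ) (H : Type) [NormedAddCommGroup H]
    [InnerProductSpace ℝ H] [CompleteSpace H] (ρ : G → H →ₗᵢ[ℝ] H) (b : G → H)
    (hm : ∀ x y v, ρ (x * y) v = ρ x (ρ y v)) (h1 : ∀ v, ρ 1 v = v)
    (hb : ∀ x y, b (x * y) = ρ x (b y) + b x)
    (h0 : ∀ v, (∀ k, ρ (κ k) v = v) → (∀ a < ng, ρ (s a) v = v) → v = 0) :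
    ∃ y, (∀ k, ρ (κ k) y + b (κ k) = y) ∧ ∀ a < ng, ρ (s a) y + b (s a) = y := by
  obtain ⟨ν, C, hC⟩ := hB.dec
  let Gf : (G → H) → H := fun f =>
    Finsupp.linearCombination ℝ (fun x => (f x - f 1) + (f x⁻¹ - f 1)) ν
  let Lf : (G → H) → H := lapR κ s nK ng wt
  have star : ∀ f : G → H, Eqv κ f →
      c / 2 * enR s ng f ≤ inner ℝ (Gf f + (C ^ 2 / (2 * c)) • Lf f) (Lf f) := by
    intro f hf
    have a1 := hI H f hf
    have a2 := (real_inner_le_norm _ (Lf f)).trans
      (mul_le_mul_of_nonneg_right (hC H f hf) (norm_nonneg _))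
    rw [inner_sub_left, sum_inner] at a2
    simp only [real_inner_smul_left] at a2
    have a3 := Real.mul_self_sqrt (enR_nonneg s ng f)
    have a4 : C * √(enR s ng f) * ‖Lf f‖ ≤
        c / 2 * enR s ng f + C ^ 2 / (2 * c) * ‖Lf f‖ ^ 2 := by
      have := mul_nonneg (show 0 ≤ 1 / (2 * c) by positivity)
        (sq_nonneg (c * √(enR s ng f) - C * ‖Lf f‖))
      have e : 1 / (2 * c) * (c * √(enR s ng f) - C * ‖Lf f‖) ^ 2 =
          c / 2 * (√(enR s ng f) * √(enR s ng f)) + C ^ 2 / (2 * c) * ‖Lf f‖ ^ 2 -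
            C * √(enR s ng f) * ‖Lf f‖ := by field_simp; ring
      rw [e, a3] at this
      linarith
    rw [inner_add_left, real_inner_smul_left, real_inner_self_eq_norm_sq]
    linarith
  have b1 : b 1 = 0 := by
    have := hb 1 1
    rw [mul_one, h1] at this
    exact left_eq_add.1 this
  have n1 : (1 : ℝ) ≤ nK := by exact_mod_cast hK.pos
  let p : Submodule ℝ H :=
    { carrier := {v | ∀ k, ρ (κ k) v = v}
      add_mem' := fun {a b} ha hb k => by rw [map_add, ha k, hb k]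
      zero_mem' := fun k => map_zero _
      smul_mem' := fun t a ha k => by rw [map_smul, ha k] }
  have hp : IsClosed (p : Set H) := by
    have : (p : Set H) = ⋂ k, {v | ρ (κ k) v = v} := by
      ext v; rw [Set.mem_iInter]; exact Iff.rfl
    rw [this]
    exact isClosed_iInter fun k => isClosed_eq (ρ (κ k)).continuous continuous_id
  have : CompleteSpace p := hp.completeSpace_coe
  -- orbit maps
  have eqv : ∀ (b' : G → H), (∀ x y, b' (x * y) = ρ x (b' y) + b' x) → ∀ y,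
      (∀ k, ρ (κ k) y + b' (κ k) = y) →
      Eqv κ (fun x => ρ x y + b' x) ∧ Lf (fun x => ρ x y + b' x) ∈ p := by
    intro b' hb' y hy
    have e : ∀ a x, ρ (a * x) y + b' (a * x) = ρ a (ρ x y + b' x) + b' a := fun a x => by
      rw [hm, hb', map_add, add_assoc]
    have hf : Eqv κ fun x => ρ x y + b' x := ⟨fun a x x' => by
      rw [e, e, add_sub_add_right_eq_sub, ← map_sub, (ρ a).norm_map], fun x k => by rw [e, hy]⟩
    refine ⟨hf, fun k0 => ?_⟩
    rcases le_or_gt nK k0 with h | h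
    · rw [hK.out k0 h, h1]
    simp only [Lf, lapR, map_sum, map_smul]
    refine sum_congr rfl fun a _ => congrArg _ ?_
    rw [← hK.left k0 h H fun x => (ρ 1 y + b' 1) - (ρ (x * s a) y + b' (x * s a))]
    refine sum_congr rfl fun k _ => ?_
    have := hf.fix 1 k0
    rw [one_mul, ← mul_one (κ k0), e] at this
    rw [mul_assoc, e (κ k0), map_sub]
    conv_rhs => rw [← this]
    abel
  let L : H →L[ℝ] H := ∑ a ∈ range ng, wt a • ∑ k ∈ range nK,
    (ContinuousLinearMap.id ℝ H - (ρ (κ k * s a)).toContinuousLinearMap)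
  let T : H →L[ℝ] H := Finsupp.linearCombination ℝ (fun x =>
    ((ρ x).toContinuousLinearMap - ContinuousLinearMap.id ℝ H) +
      ((ρ x⁻¹).toContinuousLinearMap - ContinuousLinearMap.id ℝ H)) ν
  have hL : ∀ v, L v = ∑ a ∈ range ng, wt a • ∑ k ∈ range nK, (v - ρ (κ k) (ρ (s a) v)) :=
    fun v => by simp [L, hm]
  have hT : ∀ v, T v = ∑ x ∈ ν.support, ν x • ((ρ x v - v) + (ρ x⁻¹ v - v)) := fun v => by
    simp [T, Finsupp.linearCombination_apply, Finsupp.sum]
  have addL : ∀ (b' : G → H) (u y : H),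
      Lf (fun x => ρ x (u + y) + b' x) = L u + Lf fun x => ρ x y + b' x := by
    intro b' u y
    simp only [Lf, lapR, hL, ← sum_add_distrib, ← smul_add, map_add, hm, h1]
    refine sum_congr rfl fun a _ => congrArg _ (sum_congr rfl fun k _ => by abel)
  have addG : ∀ (b' : G → H) (u y : H),
      Gf (fun x => ρ x (u + y) + b' x) = T u + Gf fun x => ρ x y + b' x := by
    intro b' u y
    simp only [Gf, hT, Finsupp.linearCombination_apply, Finsupp.sum, ← sum_add_distrib,
      ← smul_add, map_add, h1]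
    refine sum_congr rfl fun a _ => congrArg _ (by abel)
  have lin : ∀ v ∈ p, L v ∈ p ∧ c / 2 * ∑ a ∈ range ng, ‖ρ (s a) v - v‖ ^ 2 ≤
      inner ℝ (T v + (C ^ 2 / (2 * c)) • L v) (L v) := by
    intro v hv
    obtain ⟨e1, e2⟩ := eqv (fun _ => 0) (fun x y => by simp) v fun k => by rw [add_zero, hv k]
    have e3 := star _ e1
    have l1 := addL (fun _ => 0) v 0
    have l2 := addG (fun _ => 0) v 0
    simp only [add_zero, map_zero] at l1 l2 e2 e3
    have l3 : Lf (fun _ => 0) = 0 := by simp [Lf, lapR]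
    have l4 : Gf (fun _ => 0) = 0 := by simp [Gf, Finsupp.linearCombination_apply]
    rw [l1, l3, add_zero] at e2 e3
    rw [l2, l4, add_zero] at e3
    refine ⟨e2, le_trans (le_of_eq ?_) e3⟩
    simp only [enR, ph, h1]
  have mv : ∀ u ∈ p, ∀ k x, inner ℝ (ρ (κ k) x) u = inner ℝ x u := fun u hu k x => by
    conv_lhs => rw [← hu k]
    exact (ρ (κ k)).inner_map_map x u
  have adj : ∀ x u v, inner ℝ (ρ x u) v = inner ℝ (ρ x⁻¹ v) u := fun x u v => by
    rw [← (ρ x⁻¹).inner_map_map, ← hm, inv_mul_cancel, h1, real_inner_comm]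
  have frm : ∀ v, ∀ u ∈ p, inner ℝ (L v) u = ∑ a ∈ range ng,
      wt a * nK * (inner ℝ v u - inner ℝ (ρ (s a) v) u) := by
    intro v u hu
    rw [hL, sum_inner]
    refine sum_congr rfl fun a _ => ?_
    rw [real_inner_smul_left, sum_inner]
    simp only [inner_sub_left, mv u hu, sum_const, card_range, nsmul_eq_mul, mul_assoc]
  have qf : ∀ v ∈ p, inner ℝ (L v) v = ∑ a ∈ range ng,
      wt a * nK * (‖ρ (s a) v - v‖ ^ 2 / 2) := by
    intro v hv
    rw [frm v v hv]
    refine sum_congr rfl fun a _ => ?_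
    rw [norm_sub_sq_real, (ρ _).norm_map, real_inner_self_eq_norm_sq]
    ring
  have sL : ∀ u ∈ p, ∀ v ∈ p, inner ℝ (L u) v = inner ℝ (L v) u := by
    intro u hu v hv
    rw [frm u v hv, frm v u hu]
    refine sum_congr rfl fun a ha => ?_
    obtain ⟨x, y, e⟩ := sy a (mem_range.1 ha)
    rw [adj (s a) u v, e, hm, hm, hv y, mv u hu, real_inner_comm u v]
  have sT : ∀ u v, inner ℝ (T u) v = inner ℝ (T v) u := by
    intro u v
    rw [hT, hT, sum_inner, sum_inner]
    refine sum_congr rfl fun x _ => ?_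
    simp only [real_inner_smul_left, inner_add_left, inner_sub_left]
    rw [adj x u v, adj x⁻¹ u v, inv_inv, real_inner_comm u v, add_comm]
  set W : ℝ := ∑ a ∈ range ng, wt a * nK + 1 with hW
  have w0 : ∀ a, 0 ≤ wt a * nK := fun a => mul_nonneg (hw a) (by positivity)
  have W0 : 0 < W := by linarith [sum_nonneg (s := range ng) fun a _ => w0 a]
  let D : p →L[ℝ] p := (L.comp p.subtypeL).codRestrict p fun v => (lin v v.2).1
  let Bf : (H →L[ℝ] H) → p →L[ℝ] p →L[ℝ] ℝ := fun A =>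
    (innerSL ℝ : H →L[ℝ] H →L[ℝ] ℝ).bilinearComp (A.comp p.subtypeL) p.subtypeL
  have hBf : ∀ A (u v : p), Bf A u v = inner ℝ (A u) (v : H) := fun A u v => rfl
  have hD : ∀ u v : p, inner ℝ (D u) v = inner ℝ (L u) (v : H) := fun u v => rfl
  obtain ⟨C2, C20, co⟩ := lyap D (Bf (T + (C ^ 2 / (2 * c)) • L)) (c / W) (by positivity)
    (fun u v => by
      simp only [hBf, add_apply, smul_apply, inner_add_left, real_inner_smul_left]
      rw [sT, sL u u.2 v v.2])
    (fun u v => sL u u.2 v v.2)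
    (fun v => by
      rw [hD, qf v v.2]
      exact sum_nonneg fun a _ => mul_nonneg (w0 a) (by positivity))
    (fun v hv => by
      have e := (lin v v.2).2
      rw [show L v = 0 from congrArg Subtype.val hv, inner_zero_right] at e
      have e1 : ∑ a ∈ range ng, ‖ρ (s a) v - v‖ ^ 2 ≤ 0 := by
        by_contra hn
        exact absurd e (not_le.2 (mul_pos (half_pos hc) (not_le.1 hn)))
      refine Subtype.ext (h0 v v.2 fun a ha => ?_)
      have := (single_le_sum (f := fun a => ‖ρ (s a) v - v‖ ^ 2) (fun a _ => sq_nonneg _)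
        (mem_range.2 ha)).trans e1
      exact sub_eq_zero.1 (norm_eq_zero.1 (pow_eq_zero_iff two_ne_zero |>.1
        (le_antisymm this (sq_nonneg _)))))
    (fun v => by
      refine le_trans ?_ (lin v v.2).2
      rw [hD, qf v v.2, div_mul_eq_mul_div, div_le_iff₀ W0, mul_sum, mul_sum, sum_mul]
      refine sum_le_sum fun a ha => ?_
      have : wt a * nK ≤ W := by
        linarith [single_le_sum (f := fun a => wt a * nK) (fun a _ => w0 a) ha]
      have := mul_le_mul_of_nonneg_left this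
        (show 0 ≤ c / 2 * ‖ρ (s a) v - v‖ ^ 2 by positivity)
      linarith)
  have coe : IsCoercive (Bf (T + (C ^ 2 / (2 * c) + C2) • L)) := by
    refine ⟨c / W, by positivity, fun v => ?_⟩
    have := co v
    simp only [hBf, hD, add_apply, smul_apply, inner_add_left, real_inner_smul_left] at this ⊢
    linarith
  let y0 : H := (nK : ℝ)⁻¹ • ∑ k ∈ range nK, b (κ k)
  have hy0 : ∀ k, ρ (κ k) y0 + b (κ k) = y0 := by
    intro k0
    rcases le_or_gt nK k0 with h | h
    · rw [hK.out k0 h, h1, b1, add_zero]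
    have := hK.left k0 h H b
    simp only [hb, sum_add_distrib, sum_const, card_range] at this
    simp only [y0, map_smul, map_sum]
    rw [← this, smul_add, ← Nat.cast_smul_eq_nsmul ℝ, inv_smul_smul₀ (by linarith)]
  let r : H := Gf (fun x => ρ x y0 + b x) + (C ^ 2 / (2 * c) + C2) • Lf fun x => ρ x y0 + b x
  obtain ⟨u, hu⟩ := coe.continuousLinearEquivOfBilin.surjective (-p.orthogonalProjectionOnto r)
  have hy : ∀ k, ρ (κ k) (u + y0) + b (κ k) = u + y0 := fun k => by
    rw [map_add, u.2 k, add_assoc, hy0]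
  obtain ⟨e1, e2⟩ := eqv b hb _ hy
  have e3 := star _ e1
  have e4 := coe.continuousLinearEquivOfBilin_apply u ⟨_, e2⟩
  rw [hu, hBf, inner_neg_left, Submodule.inner_orthogonalProjectionOnto_eq_of_mem_right] at e4
  have e5 : inner ℝ (Gf (fun x => ρ x (u + y0) + b x) + (C ^ 2 / (2 * c) + C2) •
      Lf fun x => ρ x (u + y0) + b x) (Lf fun x => ρ x (u + y0) + b x) = 0 := by
    rw [neg_eq_iff_add_eq_zero, ← inner_add_left] at e4
    rw [← e4]
    congr 1
    simp only [addG, addL, r, add_apply, smul_apply, smul_add]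
    abel
  rw [add_smul, ← add_assoc, inner_add_left, real_inner_smul_left,
    real_inner_self_eq_norm_sq] at e5
  have e6 : enR s ng (fun x => ρ x (u + y0) + b x) ≤ 0 := by
    by_contra hn
    have := mul_pos (half_pos hc) (not_le.1 hn)
    have := mul_nonneg C20 (sq_nonneg ‖Lf fun x => ρ x (u + y0) + b x‖)
    linarith
  refine ⟨u + y0, hy, fun a ha => ?_⟩
  have := (single_le_sum (f := fun a => ph (fun x => ρ x (u + y0) + b x) (s a))
    (fun a _ => ph_nonneg _) (mem_range.2 ha)).trans e6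
  rw [ph, h1, b1, add_zero] at this
  exact sub_eq_zero.1 (norm_eq_zero.1 (pow_eq_zero_iff two_ne_zero |>.1
    (le_antisymm this (sq_nonneg _))))

/-- An action without vectors fixed by `P` has a global fixed point. -/
theorem rf_fix {κ s z : ℕ → G} {nK ng nv : ℕ} {wt μ : ℕ → ℝ} {c : ℝ} (hK : KT κ nK)
    (hw : ∀ a, 0 ≤ wt a) (sy : ∀ a < ng, ∃ x y, (s a)⁻¹ = κ x * s a * κ y) (hc : 0 < c)
    (hI : RIneq κ s z nK ng nv wt μ c) (hB : Bal κ s z ng nv μ) {P : Set G}
    (hP : ∀ x, ∀ p ∈ P, x⁻¹ * p * x ∈ P) (hS : P ⊆ Del κ s ng) (H : Type)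
    [NormedAddCommGroup H] [InnerProductSpace ℂ H] [CompleteSpace H]
    (α : G →* (H ≃ᵃⁱ[ℂ] H)) (e : ∀ v, (∀ p ∈ P, lin α p v = v) → v = 0) :
    ∃ y, ∀ x, α x y = y := by
  let _ : InnerProductSpace ℝ H := InnerProductSpace.rclikeToReal ℂ H
  let ρ : G → H →ₗᵢ[ℝ] H := fun x =>
    { toFun := lin α x
      map_add' := map_add _
      map_smul' := fun t u => (lin α x).map_smul (algebraMap ℝ ℂ t) u
      norm_map' := (lin α x).norm_map }
  obtain ⟨y, h1, h2⟩ := rf_real hK hw sy hc hI hB H ρ (fun x => α x 0)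
    (fun x y u => by show lin α (x * y) u = lin α x (lin α y u); simp)
    (fun u => by show lin α 1 u = u; simp)
    (fun x y => by rw [act_mul]; exact act_eq α x _)
    (fun v h1 h2 => e v fun p hp => by
      have key : ∀ d ∈ Del κ s ng, lin α d v = v := fun d hd => by
        induction hd using Subgroup.closure_induction with
        | mem x hx =>
          rcases hx with ⟨k, rfl⟩ | ⟨a, ha, rfl⟩
          exacts [h1 k, h2 a ha]
        | one => simp
        | mul x y _ _ hx hy => simp [hx, hy]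
        | inv x _ hx =>
          conv_lhs => rw [← hx]
          simp
      exact key p (hS hp))
  have fx : ∀ p ∈ P, α p y = y := fun p hp => fix_closure α (by
    rintro _ (⟨k, rfl⟩ | ⟨a, ha, rfl⟩)
    · rw [act_eq]; exact h1 k
    · rw [act_eq]; exact h2 a ha) (hS hp)
  refine ⟨y, fun x => sub_eq_zero.1 (e _ fun p hp => ?_)⟩
  rw [lin_sub, fx p hp, ← act_mul, show p * x = x * (x⁻¹ * p * x) by group, act_mul,
    fx _ (hP x p hp)]

/-- The relative property from a fibre certificate. -/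
theorem rf_ra {κ s z : ℕ → G} {nK ng nv : ℕ} {wt μ : ℕ → ℝ} {c : ℝ} (hK : KT κ nK)
    (hw : ∀ a, 0 ≤ wt a) (sy : ∀ a < ng, ∃ x y, (s a)⁻¹ = κ x * s a * κ y) (hc : 0 < c)
    (hI : RIneq κ s z nK ng nv wt μ c) (hB : Bal κ s z ng nv μ) {P : Set G}
    (hP : ∀ x, ∀ p ∈ P, x⁻¹ * p * x ∈ P) (hS : P ⊆ Del κ s ng) : RA G P :=
  fun H _ _ _ α e _ _ hε => (rf_fix hK hw sy hc hI hB hP hS H α e).imp fun _ hy x _ => by
    rwa [hy, sub_self, norm_zero]

end Pool.Agent.MR
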